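import Mathlib
import Pool.Agent.N902.EW.Ex2
import Pool.Agent.N902.EW.Ex3

set_option autoImplicit false

/-!
# Damped zeta values and the quotients `ζ(2n) / T_n(x)²` outside few points

For an integer `k ≥ 2` and a complex number `x` let `T_k(x)` be the Poisson mean of the tails of `ζ(k)`,
`T_k(x) = exp (-x) * ∑_j x^j/j! * ∑_{n > j} 1/n^k`, so that `T_k(0) = ζ(k)` and
`T_k(x) = 1/(k-1)! * ∫_0^∞ t^(k-1) / (exp t - 1) * exp (-x (1 - exp (-t))) dt`.

The numbers `ζ(2n) / ζ(n)²`, `n` odd, of the question are the values at `x = 0` of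
`ζ(2n) / T_n(x)²` and of `T_{2n}(x) / T_n(x)²`.

For complex numbers `a_1, …, a_n` with `a_n ≠ 0` let `I(a_1, …, a_n)` be the iterated integral of the
forms `ω_{a_1}(t_1), …, ω_{a_n}(t_n)` over `1 > t_1 > … > t_n > 0`, where `ω_0 = dt / t` and
`ω_a = (exp (a t) - 1) dt / t` for `a ≠ 0`. Let `𝓚` be the field which is generated by all algebraic
numbers, all numbers `exp b`, `b` algebraic, and all numbers `I(a_1, …, a_n)` with algebraic
`a_1, …, a_n`, no two nonzero ones of which have sum zero.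

Let `X` be a set of algebraic numbers `x` such that `x + y ≠ 0` for all `x, y` in `X` (for example
the set of the positive algebraic numbers).

(2) Let `y_1, …, y_r` be complex numbers and `Q` a set of integers `k ≥ 2` for which `ζ(k)` is algebraic
over `L = 𝓚(y_1, …, y_r)`. For all but at most `r` points `x` in `X` the numbers `T_k(x)`, `k` in `Q`, are
algebraically independent over `L`. More precisely, for finite subsets `A` of `X` and `B` of `Q` the
sum over `x` in `A` of the defects `|B| - trdeg_L L(T_k(x) : k ∈ B)` is at most `r`.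

(3) Let `N` be a set of odd integers `n ≥ 3` such that `π` and the `ζ(n)`, `n` in `N`, are algebraic over
`L = 𝓚(y_1, …, y_r)`. For all but at most `r` points `x` in `X` the numbers `ζ(2n) / T_n(x)²` and
`T_{2n}(x) / T_n(x)²`, `n` in `N`, are algebraically independent over `L`.

(4) So for all `m` and all but at most `m + 1` points `x` in `X` the `2m` numbers `ζ(2n) / T_n(x)²` and
`T_{2n}(x) / T_n(x)²`, `n = 3, 5, …, 2m+1`, are algebraically independent over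
`𝓚(π, ζ(3), ζ(5), …, ζ(2m+1))`.

(5) Let `N` be any set of odd integers `n ≥ 3` for which `ζ(2n) / ζ(n)²` is algebraic over `𝓚(π)` (for
example rational). For all but at most one point `x` in `X` the numbers `ζ(2n) / T_n(x)²` and
`T_{2n}(x) / T_n(x)²`, `n` in `N`, are algebraically independent over `𝓚(π)`.
-/

namespace Pool.Agent.Results.MP_f1a024_nt.DampedQuotients

open Set MeasureTheory

/-- `T_k(x)` -/
noncomputable def T (k : ℕ) (x : ℂ) : ℂ :=
  Complex.exp (-x) * ∑' j : ℕ, x ^ j / j.factorial * ∑' i : ℕ, 1 / ((i : ℂ) + j + 1) ^ k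

/-- the iterated integral of `ω_{a_1}(t_1), …, ω_{a_n}(t_n)` over `t > t_1 > … > t_n > 0` -/
noncomputable def iterated : List ℂ → ℝ → ℂ
  | [], _ => 1
  | a :: v, t => ∫ s in (0 : ℝ)..t, (if a = 0 then 1 else Complex.exp (a * s) - 1) * iterated v s / s

/-- `I(a_1, …, a_n)` -/
noncomputable def I (w : List ℂ) : ℂ := iterated w 1

/-- the entries are algebraic, the last one is not zero, no two nonzero entries have sum zero -/
def Admissible (w : List ℂ) : Prop :=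
  (∀ a ∈ w, IsAlgebraic ℚ a) ∧ (∀ h : w ≠ [], w.getLast h ≠ 0) ∧ ∀ a ∈ w, a ≠ 0 → -a ∉ w

/-- the field `𝓚` -/
noncomputable def baseField : IntermediateField ℚ ℂ := IntermediateField.adjoin ℚ
  ({z | IsAlgebraic ℚ z} ∪ {z | ∃ b : ℂ, IsAlgebraic ℚ b ∧ z = Complex.exp b} ∪
    {z | ∃ w : List ℂ, Admissible w ∧ z = I w})

/-- the field `𝓚(y_1, …, y_r)` -/
noncomputable def fieldWith {r : ℕ} (y : Fin r → ℂ) : IntermediateField baseField ℂ :=
  IntermediateField.adjoin baseField (range y)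

/-- the numbers `ζ(2n) / T_n(x)²` and `T_{2n}(x) / T_n(x)²`, `n` in `N` -/
noncomputable def quotients (N : Set ℕ) (x : ℂ) : N × Bool → ℂ := fun p =>
  bif p.2 then riemannZeta ((2 * p.1.1 : ℕ) : ℂ) / T p.1 x ^ 2 else T (2 * p.1.1) x / T p.1 x ^ 2

/-- the numbers `π, ζ(3), ζ(5), …, ζ(2m+1)` -/
noncomputable def constants (m : ℕ) : Fin (m + 1) → ℂ := fun j =>
  if (j : ℕ) = 0 then (Real.pi : ℂ) else riemannZeta ((2 * (j : ℕ) + 1 : ℕ) : ℂ)

open Pool.Agent.N902.EW in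
theorem iterated_eq (w : List ℂ) : ∀ t : ℝ, iterated w t = II w t := by
  induction w with
  | nil => intro t; rfl
  | cons a v ih =>
    intro t
    rw [iterated, II]
    refine intervalIntegral.integral_congr fun s _ => ?_
    show (if a = 0 then 1 else Complex.exp (a * s) - 1) * iterated v s / s = _
    rw [ih]

open Pool.Agent.N902.EW in
theorem baseField_eq : baseField = KK := by
  rw [baseField, KK]
  congr 2
  ext z
  constructor
  · rintro ⟨w, hw, rfl⟩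
    exact ⟨w, ⟨hw.1, hw.2.1⟩, hw.2.2, iterated_eq w 1⟩
  · rintro ⟨w, hw, hno, rfl⟩
    exact ⟨w, ⟨hw.1, hw.2, hno⟩, (iterated_eq w 1).symm⟩

theorem T_eq : T = Pool.Agent.N902.EW.PT := rfl

theorem quotients_eq : quotients = Pool.Agent.N902.EW.quo := rfl

theorem alg_iff {r : ℕ} (y : Fin r → ℂ) (z : ℂ) :
    IsAlgebraic (fieldWith y) z ↔ IsAlgebraic (IntermediateField.adjoin Pool.Agent.N902.EW.KK (range y)) z := by
  unfold fieldWith
  rw [baseField_eq]

theorem ind_iff {r : ℕ} (y : Fin r → ℂ) {ι : Type} (z : ι → ℂ) : AlgebraicIndependent (fieldWith y) z ↔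
    AlgebraicIndependent (IntermediateField.adjoin Pool.Agent.N902.EW.KK (range y)) z := by
  unfold fieldWith
  rw [baseField_eq]

theorem trdeg_eq {r : ℕ} (y : Fin r → ℂ) (s : Set ℂ) :
    Algebra.trdeg (fieldWith y) (IntermediateField.adjoin (fieldWith y) s) =
      Algebra.trdeg (IntermediateField.adjoin Pool.Agent.N902.EW.KK (range y))
        (IntermediateField.adjoin (IntermediateField.adjoin Pool.Agent.N902.EW.KK (range y)) s) := by
  unfold fieldWith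
  rw [baseField_eq]

theorem mem_fieldWith {r : ℕ} (y : Fin r → ℂ) (j : Fin r) : IsAlgebraic (fieldWith y) (y j) :=
  isAlgebraic_algebraMap (⟨y j, IntermediateField.subset_adjoin _ _ ⟨j, rfl⟩⟩ : fieldWith y)

open Pool.Agent.N902.EW in
theorem general (X : Set ℂ) (hX : ∀ x ∈ X, IsAlgebraic ℚ x ∧ ∀ y ∈ X, x + y ≠ 0) (r : ℕ) (y : Fin r → ℂ) (N : Set ℕ)
    (hN : ∀ n ∈ N, 3 ≤ n ∧ Odd n ∧ IsAlgebraic (fieldWith y) (riemannZeta n)) (hpi : IsAlgebraic (fieldWith y) (Real.pi : ℂ)) :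
    {x | x ∈ X ∧ ¬ AlgebraicIndependent (fieldWith y) (quotients N x)}.encard ≤ (r : ℕ∞) := by
  have h := exc_quo X hX y N (fun n hn => ⟨(hN n hn).1, (hN n hn).2.1⟩) ((alg_iff _ _).1 hpi)
    (fun n hn => (alg_iff _ _).1 (hN n hn).2.2)
  simp only [ind_iff, quotients_eq]
  exact h

open Pool.Agent.N902.EW in
theorem first_numbers (X : Set ℂ) (hX : ∀ x ∈ X, IsAlgebraic ℚ x ∧ ∀ y ∈ X, x + y ≠ 0) (m : ℕ) :
    {x | x ∈ X ∧ ¬ AlgebraicIndependent (fieldWith (constants m))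
      (quotients {n | 3 ≤ n ∧ n ≤ 2 * m + 1 ∧ Odd n} x)}.encard ≤ ((m + 1 : ℕ) : ℕ∞) := by
  refine general X hX (m + 1) (constants m) _ ?_ ?_
  · rintro n ⟨h3, hn, hodd⟩
    refine ⟨h3, hodd, ?_⟩
    obtain ⟨j, rfl⟩ := hodd
    have h1 := mem_fieldWith (constants m) (⟨j, by omega⟩ : Fin (m + 1))
    have h2 : constants m (⟨j, by omega⟩ : Fin (m + 1)) = riemannZeta ((2 * j + 1 : ℕ) : ℂ) := by
      rw [constants, if_neg (by show ¬ j = 0; omega)]
    rwa [h2] at h1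
  · exact mem_fieldWith (constants m) 0

open Pool.Agent.N902.EW in
theorem algebraic_quotients (X : Set ℂ) (hX : ∀ x ∈ X, IsAlgebraic ℚ x ∧ ∀ y ∈ X, x + y ≠ 0) (N : Set ℕ)
    (hN : ∀ n ∈ N, 3 ≤ n ∧ Odd n ∧ IsAlgebraic (fieldWith fun _ : Fin 1 => (Real.pi : ℂ))
      (riemannZeta ((2 * n : ℕ) : ℂ) / riemannZeta n ^ 2)) :
    {x | x ∈ X ∧ ¬ AlgebraicIndependent (fieldWith fun _ : Fin 1 => (Real.pi : ℂ)) (quotients N x)}.encard ≤ 1 := by
  have h := general X hX 1 (fun _ : Fin 1 => (Real.pi : ℂ)) N ?_ (mem_fieldWith (fun _ : Fin 1 => (Real.pi : ℂ)) 0)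
  · exact_mod_cast h
  · intro n hn
    obtain ⟨h3, hodd, hq⟩ := hN n hn
    refine ⟨h3, hodd, ?_⟩
    rw [alg_iff] at hq ⊢
    have hpi : (Real.pi : ℂ) ∈ clf KK (range fun _ : Fin 1 => (Real.pi : ℂ)) := subset_clf _ ⟨0, rfl⟩
    have h1 : riemannZeta ((2 * n : ℕ) : ℂ) ∈ clf KK (range fun _ : Fin 1 => (Real.pi : ℂ)) :=
      zeta_even_mem hpi (by omega)
    have h2 : riemannZeta ((2 * n : ℕ) : ℂ) / riemannZeta n ^ 2 ∈ clf KK (range fun _ : Fin 1 => (Real.pi : ℂ)) :=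
      mem_clf.2 hq
    have h4 : riemannZeta ((2 * n : ℕ) : ℂ) ≠ 0 := zeta_ne_zero' (by omega)
    have h5 : riemannZeta (n : ℂ) ≠ 0 := zeta_ne_zero' (by omega)
    have h6 := (clf KK _).div_mem h1 h2
    have h7 : riemannZeta ((2 * n : ℕ) : ℂ) / (riemannZeta ((2 * n : ℕ) : ℂ) / riemannZeta n ^ 2) = riemannZeta n ^ 2 := by
      field_simp
    rw [h7] at h6
    exact mem_clf.1 (clf_pow two_ne_zero h6)

open Pool.Agent.N902.EW in
theorem defects (X : Set ℂ) (hX : ∀ x ∈ X, IsAlgebraic ℚ x ∧ ∀ y ∈ X, x + y ≠ 0) (r : ℕ) (y : Fin r → ℂ) (Q : Set ℕ)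
    (hQ : ∀ k ∈ Q, 2 ≤ k ∧ IsAlgebraic (fieldWith y) (riemannZeta k)) :
    {x | x ∈ X ∧ ¬ AlgebraicIndependent (fieldWith y) (fun k : Q => T k x)}.encard ≤ (r : ℕ∞) ∧
    ∀ (A : Finset ℂ) (B : Finset ℕ), (A : Set ℂ) ⊆ X → (B : Set ℕ) ⊆ Q →
      ((A.card * B.card : ℕ) : Cardinal) ≤ (r : Cardinal) + ∑ x ∈ A, Algebra.trdeg (fieldWith y)
        (IntermediateField.adjoin (fieldWith y) ((fun k => T k x) '' (B : Set ℕ))) := by
  constructor
  · have h := exc_zeta X hX y Q (fun k hk => ⟨(hQ k hk).1, (alg_iff _ _).1 (hQ k hk).2⟩)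
    simp only [ind_iff, T_eq]
    exact h
  · intro A B hA hB
    simp only [T_eq]
    let g : X × Q → {p : ℕ × ℂ // 2 ≤ p.1 ∧ p.2 ∈ X} := fun p => ⟨(p.2.1, p.1.1), (hQ _ p.2.2).1, p.1.2⟩
    have hg : Function.Injective g := by
      rintro ⟨a, b⟩ ⟨c, d⟩ h
      have h1 := congrArg (fun z => z.1) h
      have h2 := (Prod.mk.injEq _ _ _ _ ▸ h1 : (b : ℕ) = d ∧ (a : ℂ) = c)
      exact Prod.ext (Subtype.ext h2.2) (Subtype.ext h2.1)
    have h0 := total_defect (s := fun p : X × Q => PS p.2.1 p.1.1) ((ai_PS X hX).comp g hg) y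
      (fun (x : X) (k : Q) => PT k.1 x.1) (fun x k => by
        have h1 : riemannZeta k.1 ∈ clf KK (insert (PT k.1 x.1) (range y)) :=
          clf_mono (subset_insert _ _) (mem_clf.2 ((alg_iff _ _).1 (hQ _ k.2).2))
        have h2 : PT k.1 x.1 ∈ clf KK (insert (PT k.1 x.1) (range y)) := subset_clf _ (mem_insert _ _)
        have h3 := zeta_split (hQ _ k.2).1 x.1
        have h4 : PS k.1 x.1 = riemannZeta k.1 - PT k.1 x.1 := by rw [h3]; ring
        show PS k.1 x.1 ∈ _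
        rw [h4]
        exact (clf KK _).sub_mem h1 h2)
      (A.attach.image fun x => (⟨x.1, hA x.2⟩ : X)) (B.attach.image fun k => (⟨k.1, hB k.2⟩ : Q))
    have hinjA : Function.Injective (fun x : A => (⟨x.1, hA x.2⟩ : X)) := fun a b h =>
      Subtype.ext (congrArg (fun z => z.1) h)
    have hinjB : Function.Injective (fun k : B => (⟨k.1, hB k.2⟩ : Q)) := fun a b h =>
      Subtype.ext (congrArg (fun z => z.1) h)
    rw [Finset.card_image_of_injective _ hinjA, Finset.card_image_of_injective _ hinjB, Finset.card_attach,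
      Finset.card_attach, Finset.sum_image (fun a _ b _ h => hinjA h)] at h0
    have himg : ∀ x : A, (fun k : Q => PT k.1 x.1) '' ((B.attach.image fun k => (⟨k.1, hB k.2⟩ : Q) : Finset Q) : Set Q) =
        (fun k => PT k x.1) '' (B : Set ℕ) := by
      intro x
      ext z
      constructor
      · rintro ⟨k, hk, rfl⟩
        obtain ⟨k', _, rfl⟩ := Finset.mem_image.1 (Finset.mem_coe.1 hk)
        exact ⟨k'.1, k'.2, rfl⟩
      · rintro ⟨k, hk, rfl⟩
        exact ⟨⟨k, hB hk⟩, Finset.mem_coe.2 (Finset.mem_image.2 ⟨⟨k, hk⟩, Finset.mem_attach _ _, rfl⟩), rfl⟩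
    refine h0.trans (le_of_eq ?_)
    congr 1
    rw [← Finset.sum_attach A]
    refine Finset.sum_congr rfl fun x _ => ?_
    rw [himg x]
    exact (trdeg_eq _ _).symm

theorem result :
    -- (1)
    (∀ k : ℕ, 2 ≤ k → T k 0 = riemannZeta k ∧ ∀ x : ℂ,
      T k x = 1 / ((k - 1).factorial : ℂ) * ∫ t in Ioi (0 : ℝ),
        ((t ^ (k - 1) / (Real.exp t - 1) : ℝ) : ℂ) * Complex.exp (-x * (1 - Complex.exp (-t)))) ∧
    ∀ X : Set ℂ, (∀ x ∈ X, IsAlgebraic ℚ x ∧ ∀ y ∈ X, x + y ≠ 0) →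
      -- (2)
      (∀ (r : ℕ) (y : Fin r → ℂ) (Q : Set ℕ), (∀ k ∈ Q, 2 ≤ k ∧ IsAlgebraic (fieldWith y) (riemannZeta k)) →
        {x | x ∈ X ∧ ¬ AlgebraicIndependent (fieldWith y) (fun k : Q => T k x)}.encard ≤ (r : ℕ∞) ∧
        ∀ (A : Finset ℂ) (B : Finset ℕ), (A : Set ℂ) ⊆ X → (B : Set ℕ) ⊆ Q →
          ((A.card * B.card : ℕ) : Cardinal) ≤ (r : Cardinal) + ∑ x ∈ A, Algebra.trdeg (fieldWith y)
            (IntermediateField.adjoin (fieldWith y) ((fun k => T k x) '' (B : Set ℕ)))) ∧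
      -- (3)
      (∀ (r : ℕ) (y : Fin r → ℂ) (N : Set ℕ), IsAlgebraic (fieldWith y) (Real.pi : ℂ) →
        (∀ n ∈ N, 3 ≤ n ∧ Odd n ∧ IsAlgebraic (fieldWith y) (riemannZeta n)) →
        {x | x ∈ X ∧ ¬ AlgebraicIndependent (fieldWith y) (quotients N x)}.encard ≤ (r : ℕ∞)) ∧
      -- (4)
      (∀ m : ℕ, {x | x ∈ X ∧ ¬ AlgebraicIndependent (fieldWith (constants m))
        (quotients {n | 3 ≤ n ∧ n ≤ 2 * m + 1 ∧ Odd n} x)}.encard ≤ ((m + 1 : ℕ) : ℕ∞)) ∧
      -- (5)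
      ∀ N : Set ℕ, (∀ n ∈ N, 3 ≤ n ∧ Odd n ∧ IsAlgebraic (fieldWith fun _ : Fin 1 => (Real.pi : ℂ))
          (riemannZeta ((2 * n : ℕ) : ℂ) / riemannZeta n ^ 2)) →
        {x | x ∈ X ∧ ¬ AlgebraicIndependent (fieldWith fun _ : Fin 1 => (Real.pi : ℂ)) (quotients N x)}.encard ≤ 1 := by
  refine ⟨fun k hk => ⟨Pool.Agent.N902.EW.PT_zero hk, fun x => ?_⟩, fun X hX => ⟨defects X hX,
    fun r y N hpi hN => general X hX r y N hN hpi, first_numbers X hX, algebraic_quotients X hX⟩⟩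
  obtain ⟨m, rfl⟩ : ∃ m, k = m + 1 := ⟨k - 1, by omega⟩
  exact Pool.Agent.N902.EW.PT_eq_integral (by omega) x

end Pool.Agent.Results.MP_f1a024_nt.DampedQuotients
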