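import Pool.Agent.N603.DB.Nr
import Pool.Agent.N603.DB.Nq2
import Pool.Agent.N603.DB.Hz

/-!
# `ζ(2n, x) / ζ(n, x)²` at the algebraic numbers near almost every point

The numbers `ζ(2n) / ζ(n)²` are the values at `x = 1` of the functions `ζ(2n, x) / ζ(n, x)²`, where
`ζ(k, x) = ∑ 1 / (x + m)^k`, `m ≥ 0`, is the Hurwitz zeta function. We consider the numbers
`Γ(x), ψ(x), ζ(2, x), …, ζ(w + 1, x)` at algebraic numbers `x` with positive real part. Let `ω_0, ω_1, …` be arbitrary
complex numbers, for instance `1`, or all powers of `π`, or all zeta values.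

(1) For all complex numbers `ξ` with positive real part outside a set of Hausdorff dimension ZERO, all number fields `F` in
`ℂ`, all degrees `d`, all powers `A` and all exponents `τ > 0` there is `B` such that for all `C`: at ALL but finitely many
elements `x` of `F` with `|ξ - x| ≤ C T^(-τ)`, `T` the height of `x`, these numbers are good: they satisfy no polynomial
relation of degree at most `d`, not even an approximate one, whose coefficients are combinations of the numbers
`ω_0, …, ω_(g-1)` with coefficients in `F` of height at most `T ^ A`, and together with `π` no such relation over `F`. In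
particular, for all `n ≥ 2` with `2n ≤ w + 1`, `ζ(n, x) ≠ 0` and `ζ(2n, x) / ζ(n, x)²` is no element of `F` of height at
most `T ^ A`. For real `ξ` and rational `x` the case `τ = 2` concerns all convergents of `ξ`; but every `τ > 0` is allowed,
and for small `τ` there are very many `x`.

(2) The same at EVERY element `x` of `F` in a compact subset of the half-plane with a height within `q^κ` of `G q`, where
`q` runs through the natural numbers with `‖q α_j - β_j‖ ≤ C q^(-τ)` for `j = 1, …, m`, for all `α` in `ℝ^m` outside a set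
of Hausdorff dimension at most `(m + κ) / (1 + τ)`. For `β = 0`, `C = 1`, `τ = 1 / m` these `q` include the denominators of
all best simultaneous approximations; they form a very sparse sequence, and for `κ < 1` the bound is less than `m`, so that
the statement holds for almost all `α`. `G` is a function with steps bounded below by a positive constant and growth at
most `v^e`, for example `a v^e`.

Proof. The functions `x, Γ(x), ψ(x), ψ'(x), …` are algebraically independent (`Pool.Agent.Q136.LR.loc`), and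
`ζ(k, x) = (-1)^k / (k - 1)! ψ^(k-1)(x)` (proved in `Pool.Agent.N603.DB.Hz`). The elements of height at most `T` in a
compact set which are bad at their own height are `O(T^ε)` in number for every `ε > 0` (determinants of Bombieri-Pila
type); so the limit superior of the discs with radii `C T^(-τ)` around them has dimension at most `ε / τ`, and for (2) the
`q` for which a bad element has a height near `G q` form a set with `O(X^(κ + ε))` elements up to `X`, and the `α` with
infinitely many approximations with denominators in such a set are covered by few small cubes (`Pool.Agent.N671.DA`).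
There are only countably many number fields in `ℂ`.
-/

set_option autoImplicit false

open NumberField

namespace Pool.Agent.Results.MP_f1a024_nt.HurwitzZetaNearEveryPoint

open Pool.Agent.N671.DA (Solves Expanding expanding_pow)

/-- The Hurwitz zeta function `ζ(k, x) = ∑ 1 / (x + m)^k`, `m ≥ 0`, for `k ≥ 2`. -/
noncomputable def hurwitz (k : ℕ) (x : ℂ) : ℂ := ∑' m : ℕ, 1 / (x + m) ^ k

/-- The right half-plane. -/
def dom : Set ℂ := {x | 0 < x.re}

/-- The numbers `Γ(x)` (index `none`), `ψ(x)` (the logarithmic derivative of `Γ`, index `some 0`) and `ζ(k + 1, x)` (index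
`some k`), `1 ≤ k ≤ w`. -/
noncomputable def value (w : ℕ) (x : ℂ) : Option (Fin (w + 1)) → ℂ
  | none => Complex.Gamma x
  | some k => if (k : ℕ) = 0 then Complex.digamma x else hurwitz (k + 1) x

/-- The polynomials of degree at most `d` in each variable, all of whose coefficients are of the form `∑ ξ_i ι(c_i)`, where
the `c_i` are integers of the number field `F` all of whose conjugates have absolute value at most `H`. -/
def Admissible {σ : Type} {g : ℕ} (F : Type) [Field F] [NumberField F] (ι : F →+* ℂ) (ξ : Fin g → ℂ) (d : ℕ) (H : ℝ)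
    (P : MvPolynomial σ ℂ) : Prop :=
  (∀ y, P.degreeOf y ≤ d) ∧
    ∀ s, ∃ c : Fin g → 𝓞 F, (∀ i (φ : F →+* ℂ), ‖φ (c i)‖ ≤ H) ∧ P.coeff s = ∑ i, ξ i * ι (c i)

/-- The complex numbers `v` are good: every admissible polynomial takes at them a value which is at least `δ` times each of
its coefficients, and `π` and these numbers satisfy no relation `Q = 0` with a nonzero polynomial `Q` of degree at most `d`
in each variable whose coefficients are integers of `F` with conjugates of absolute value at most `H`. -/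
def Good {σ : Type} {g : ℕ} (F : Type) [Field F] [NumberField F] (ι : F →+* ℂ) (ξ : Fin g → ℂ) (d : ℕ)
    (H δ : ℝ) (v : σ → ℂ) : Prop :=
  (∀ P : MvPolynomial σ ℂ, Admissible F ι ξ d H P → ∀ s, δ * ‖P.coeff s‖ ≤ ‖MvPolynomial.aeval v P‖) ∧
  ∀ Q : MvPolynomial (Option σ) (𝓞 F), Q ≠ 0 → (∀ x, Q.degreeOf x ≤ d) →
    (∀ s (φ : F →+* ℂ), ‖φ ((Q.coeff s : 𝓞 F) : F)‖ ≤ H) →
    MvPolynomial.eval₂ (ι.comp (algebraMap (𝓞 F) F)) (fun o => o.elim (Real.pi : ℂ) v) Q ≠ 0

/-- The element `x` of `F` is a quotient of integers all of whose conjugates have absolute value at most `T`. -/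
def HeightLe (F : Type) [Field F] [NumberField F] (T : ℝ) (x : F) : Prop :=
  ∃ a b : 𝓞 F, b ≠ 0 ∧ (∀ φ : F →+* ℂ, ‖φ a‖ ≤ T ∧ ‖φ b‖ ≤ T) ∧ x = a / b

/-- The height of `x`: the least `T` such that `x` is a quotient of two integers of `F` all of whose conjugates have
absolute value at most `T`. -/
noncomputable def height (F : Type) [Field F] [NumberField F] (x : F) : ℝ := sInf {T : ℝ | HeightLe F T x}

theorem hurwitz_one (k : ℕ) (hk : 2 ≤ k) : hurwitz k 1 = riemannZeta k := by
  rw [zeta_eq_tsum_one_div_nat_add_one_cpow (by rw [Complex.natCast_re]; exact_mod_cast hk)]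
  unfold hurwitz
  refine tsum_congr fun m => ?_
  rw [Complex.cpow_natCast, add_comm]

theorem value_eq (w : ℕ) (x : ℂ) (a : Option (Fin (w + 1))) : Pool.Agent.N603.DB.Hz.fh w a x = value w x a := by
  cases a with
  | none => rfl
  | some k =>
    show (if (k : ℕ) = 0 then Complex.digamma else Pool.Agent.N603.DB.Hz.hz (k + 1)) x =
      (if (k : ℕ) = 0 then Complex.digamma x else hurwitz (k + 1) x)
    split_ifs <;> rfl

theorem quot {F : Type} [Field F] [NumberField F] {ι : F →+* ℂ} {w n : ℕ} (hn : 2 ≤ n) (hw : 2 * n ≤ w + 1) {H δ : ℝ}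
    (hδ : 0 < δ) (hH : 1 ≤ H) {x : ℂ}
    (h : Pool.Agent.R349.Gen.GoodG F ι (fun _ : Fin 1 => (1 : ℂ)) 2 H δ (value w x)) {y : F}
    (hy : HeightLe F H y) : hurwitz n x ≠ 0 ∧ hurwitz (2 * n) x / hurwitz n x ^ 2 ≠ ι y := by
  classical
  obtain ⟨a, b, hb, hab, rfl⟩ := hy
  have e1 : value w x (some ⟨n - 1, by omega⟩) = hurwitz n x := by
    show (if n - 1 = 0 then Complex.digamma x else hurwitz (n - 1 + 1) x) = _
    rw [if_neg (by omega), Nat.sub_add_cancel (by omega)]
  have e2 : value w x (some ⟨2 * n - 1, by omega⟩) = hurwitz (2 * n) x := by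
    show (if 2 * n - 1 = 0 then Complex.digamma x else hurwitz (2 * n - 1 + 1) x) = _
    rw [if_neg (by omega), Nat.sub_add_cancel (by omega)]
  have h0 : hurwitz n x ≠ 0 := by
    rw [← e1]
    exact Pool.Agent.N603.DB.not_zero (by norm_num) hδ hH h _
  have h1 := Pool.Agent.N603.DB.not_rel hδ (m := Finsupp.single (some (⟨2 * n - 1, by omega⟩ : Fin (w + 1))) 1)
    (m' := Finsupp.single (some (⟨n - 1, by omega⟩ : Fin (w + 1))) 2)
    (fun h => by
      have h3 := DFunLike.congr_fun h (some (⟨2 * n - 1, by omega⟩ : Fin (w + 1)))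
      rw [Finsupp.single_eq_same, Finsupp.single_apply] at h3
      (split_ifs at h3; omega))
    (fun i => by
      rw [Finsupp.single_apply]
      split_ifs
      · norm_num
      · exact Nat.zero_le _)
    (fun i => by
      rw [Finsupp.single_apply]
      split_ifs
      · exact le_rfl
      · exact Nat.zero_le _) h a b hb hab
  rw [Finsupp.prod_single_index (by rw [pow_zero]), Finsupp.prod_single_index (by rw [pow_zero]), pow_one, e1, e2] at h1
  refine ⟨h0, fun h2 => h1 ?_⟩
  rw [← h2, div_mul_cancel₀ _ (pow_ne_zero 2 h0)]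

/-- **`ζ(2n, x) / ζ(n, x)²` near every point and at the denominators of good approximations.** Let `w` be a natural
number, and let `ω_0, ω_1, …` be complex numbers.
(1) There is a set `E` in `ℂ` of Hausdorff dimension zero, whose real elements form a set of Hausdorff dimension zero,
such that for all `ξ` with positive real part which are not in `E`, all number fields `F` in `ℂ`, all `g`, `d`,
`A ≥ 0` and all `τ > 0`: there is `B` such that for all `C` there is `T₁` such that for ALL `x` in `F` of height `T ≥ T₁`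
with `|ξ - x| ≤ C T^(-τ)` the real part of `x` is positive and the numbers `Γ(x), ψ(x), ζ(2, x), …, ζ(w + 1, x)` are good, for the
degree `d`, the height `T ^ A`, the numbers `ω_0, …, ω_(g-1)` and the measure `T ^ (-B)`; and (for `T ≥ T₂`) for all
`n ≥ 2` with `2 n ≤ w + 1`, `ζ(n, x) ≠ 0` and `ζ(2n, x) / ζ(n, x)²` is no element of `F` of height at most `T ^ A`.
(2) Let `G` have steps `≥ a > 0` and growth at most `v^b`, `0 ≤ κ ≤ 1`, `β` in `ℝ^m` and `τ > 0`. There is a set `E` in
`ℝ^m` of Hausdorff dimension at most `(m + κ) / (1 + τ)` such that for all `α` outside `E`, all number fields `F` in `ℂ`,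
all `g`, `d`, `A ≥ 0` and all compact subsets `L` of the half-plane there is `B` such that for all `C` and all large `q` with
`‖q α_j - β_j‖ ≤ C q^(-τ)` for all `j`: the same at EVERY `x` in `F ∩ L` with `|height x - G q| ≤ q^κ`; and (for all
large `q`) the same for `ζ(2n, x) / ζ(n, x)²`.
(3) `ζ(k, 1) = ζ(k)` for `k ≥ 2`. Only finitely many elements of `F` have a height less than `T₁`; the infimum in the definition of the height is a
minimum, the height of a rational number in `(0, 1)` is its denominator, and the functions `a v^b` with `a > 0`, `b ≥ 1`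
are examples of `G`. -/
theorem result :
    (∀ (w : ℕ) (ω : ℕ → ℂ),
      (∃ E : Set ℂ, dimH E = 0 ∧ dimH {y : ℝ | (y : ℂ) ∈ E} = 0 ∧
        ∀ ξ ∈ dom, ξ ∉ E → ∀ (F : IntermediateField ℚ ℂ) [NumberField F] (g d : ℕ) (A τ : ℝ), 0 ≤ A → 0 < τ →
          (∃ B : ℝ, ∀ C : ℝ, ∃ T₁ : ℝ, ∀ x : F, T₁ ≤ height F x → ‖ξ - (x : ℂ)‖ ≤ C * height F x ^ (-τ) →
            (x : ℂ) ∈ dom ∧ Good F (algebraMap F ℂ) (fun i : Fin g => ω i) d (height F x ^ A) (height F x ^ (-B))
              (value w (x : ℂ))) ∧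
          ∀ C : ℝ, ∃ T₂ : ℝ, ∀ x : F, T₂ ≤ height F x → ‖ξ - (x : ℂ)‖ ≤ C * height F x ^ (-τ) →
            ∀ n : ℕ, 2 ≤ n → 2 * n ≤ w + 1 → ∀ y : F, height F y ≤ height F x ^ A →
              hurwitz n x ≠ 0 ∧ hurwitz (2 * n) x / hurwitz n x ^ 2 ≠ (y : ℂ)) ∧
      ∀ (G : ℕ → ℝ) (b : ℝ), Expanding G b → ∀ κ : ℝ, 0 ≤ κ → κ ≤ 1 → ∀ (m : ℕ) (β : Fin m → ℝ) (τ : ℝ), 0 < τ →
      ∃ E : Set (Fin m → ℝ), dimH E ≤ ENNReal.ofReal ((m + κ) / (1 + τ)) ∧
        ∀ α, α ∉ E → ∀ (F : IntermediateField ℚ ℂ) [NumberField F] (g d : ℕ) (A : ℝ) (L : Set ℂ), 0 ≤ A →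
          IsCompact L → L ⊆ dom →
          (∃ B : ℝ, ∀ C : ℝ, ∃ Q : ℕ, ∀ q : ℕ, Q ≤ q → Solves α β q (C * (q : ℝ) ^ (-τ)) →
            ∀ x : F, (x : ℂ) ∈ L → |height F x - G q| ≤ (q : ℝ) ^ κ →
              Good F (algebraMap F ℂ) (fun i : Fin g => ω i) d (height F x ^ A) (height F x ^ (-B))
                (value w (x : ℂ))) ∧
          ∀ C : ℝ, ∃ Q : ℕ, ∀ q : ℕ, Q ≤ q → Solves α β q (C * (q : ℝ) ^ (-τ)) →
            ∀ x : F, (x : ℂ) ∈ L → |height F x - G q| ≤ (q : ℝ) ^ κ →
              ∀ n : ℕ, 2 ≤ n → 2 * n ≤ w + 1 → ∀ y : F, height F y ≤ height F x ^ A →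
                hurwitz n x ≠ 0 ∧ hurwitz (2 * n) x / hurwitz n x ^ 2 ≠ (y : ℂ)) ∧
    (∀ k : ℕ, 2 ≤ k → hurwitz k 1 = riemannZeta k) ∧
    (∀ (F : Type) [Field F] [NumberField F] (T : ℝ), {x : F | height F x < T}.Finite) ∧
    (∀ (F : Type) [Field F] [NumberField F] (x : F) (T : ℝ), height F x ≤ T ↔ HeightLe F T x) ∧
    (∀ (F : Type) [Field F] [NumberField F] (r : ℚ), 0 < r → r < 1 → height F (r : F) = r.den) ∧
    ∀ a b : ℝ, 0 < a → 1 ≤ b → Expanding (fun v => a * (v : ℝ) ^ b) b := by
  refine ⟨fun w ω => ?_, hurwitz_one,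
    fun F _ _ T => Pool.Agent.N603.DB.fin_lt F T, fun F _ _ x T => Pool.Agent.N603.DA.ht_le_iff F x T,
    fun F _ _ r h0 h1 => Pool.Agent.N603.DA.ht_rat F r h0 h1, fun a b ha hb => expanding_pow ha hb⟩
  have hv : ∀ x : ℂ, (fun k : Option (Fin (w + 1)) => Pool.Agent.N603.DB.Hz.fh w k x) = value w x := fun x =>
    funext fun k => value_eq w x k
  have hS : IsOpen dom := Pool.Agent.N603.DB.Hz.Hp_open
  refine ⟨?_, fun G b hG κ hκ hκ1 m β τ hτ => ?_⟩
  · obtain ⟨E, hE, h⟩ := Pool.Agent.N603.DB.near_every (Pool.Agent.N603.DB.Hz.fh w) _ hS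
      (fun j x hx => Pool.Agent.N603.DB.Hz.fh_an w j x hx) (Pool.Agent.N603.DB.Hz.fh_loc w) ω
    obtain ⟨E', hE', h'⟩ := Pool.Agent.N603.DB.near_every (Pool.Agent.N603.DB.Hz.fh w) _ hS
      (fun j x hx => Pool.Agent.N603.DB.Hz.fh_an w j x hx) (Pool.Agent.N603.DB.Hz.fh_loc w) (fun _ => 1)
    have hEE : dimH (E ∪ E') = 0 := by rw [dimH_union, hE, hE', max_self]
    refine ⟨E ∪ E', hEE, Pool.Agent.N603.DB.dim_real hEE, fun ξ hξ hξE F _ g d A τ hA hτ => ⟨?_, fun C => ?_⟩⟩
    · obtain ⟨B, hB⟩ := h ξ hξ (fun h1 => hξE (Or.inl h1)) F g d A τ hτ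
      refine ⟨B, fun C => ?_⟩
      obtain ⟨T₁, hT₁⟩ := hB C
      refine ⟨T₁, fun x hx hd => ?_⟩
      have h1 := hT₁ x hx hd
      rw [hv] at h1
      exact h1
    · obtain ⟨B, hB⟩ := h' ξ hξ (fun h1 => hξE (Or.inr h1)) F 1 2 A τ hτ
      obtain ⟨T₁, hT₁⟩ := hB C
      refine ⟨T₁, fun x hx hd n hn hnw y hy => ?_⟩
      have h1 := (hT₁ x hx hd).2
      rw [hv] at h1
      have hpos : 0 < Pool.Agent.N603.DA.ht F x ^ (-B) :=
        Real.rpow_pos_of_pos (by linarith [Pool.Agent.N603.DA.one_le_ht F x]) _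
      exact quot hn hnw hpos (Real.one_le_rpow (Pool.Agent.N603.DA.one_le_ht F x) hA) h1
        ((Pool.Agent.N603.DA.ht_le_iff F y _).1 hy)
  · obtain ⟨E, hE, h⟩ := Pool.Agent.N603.DB.master_all' (Pool.Agent.N603.DB.Hz.fh w) _ hS
      (fun j x hx => Pool.Agent.N603.DB.Hz.fh_an w j x hx) (Pool.Agent.N603.DB.Hz.fh_loc w) ω hG hκ hκ1 β hτ
    obtain ⟨E', hE', h'⟩ := Pool.Agent.N603.DB.master_all' (Pool.Agent.N603.DB.Hz.fh w) _ hS
      (fun j x hx => Pool.Agent.N603.DB.Hz.fh_an w j x hx) (Pool.Agent.N603.DB.Hz.fh_loc w) (fun _ => 1)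
      hG hκ hκ1 β hτ
    refine ⟨E ∪ E', ?_, fun α hα F _ g d A L hA hL hLS => ⟨?_, fun C => ?_⟩⟩
    · rw [dimH_union]
      exact max_le hE hE'
    · obtain ⟨B, hB⟩ := h α (fun h1 => hα (Or.inl h1)) F g d A L hL hLS
      refine ⟨B, fun C => ?_⟩
      obtain ⟨Q, hQ⟩ := hB C
      refine ⟨Q, fun q hq hs x hx hG' => ?_⟩
      have h1 := hQ q hq hs x hx hG'
      rw [hv] at h1
      exact h1
    · obtain ⟨B, hB⟩ := h' α (fun h1 => hα (Or.inr h1)) F 1 2 A L hL hLS
      obtain ⟨Q, hQ⟩ := hB C
      refine ⟨Q, fun q hq hs x hx hG' n hn hnw y hy => ?_⟩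
      have h1 := hQ q hq hs x hx hG'
      rw [hv] at h1
      have hpos : 0 < Pool.Agent.N603.DA.ht F x ^ (-B) :=
        Real.rpow_pos_of_pos (by linarith [Pool.Agent.N603.DA.one_le_ht F x]) _
      exact quot hn hnw hpos (Real.one_le_rpow (Pool.Agent.N603.DA.one_le_ht F x) hA) h1
        ((Pool.Agent.N603.DA.ht_le_iff F y _).1 hy)

end Pool.Agent.Results.MP_f1a024_nt.HurwitzZetaNearEveryPoint
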