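import Mathlib
import Pool.Agent.N778.AF.Tp
import Pool.Agent.N778.AF.Sim

set_option autoImplicit false

/-!
# The quotients `ζ(2n) / ζ(n)²`, scale by scale

Let `t(n) = ζ(2n) / ζ(n)²`. For an integer `k ≥ 2` let `ω = exp (2 π i / k)`, and for a rational number `x > 0` let
`R_k(x)` be the integral `(-1)^k / k! * ∫ (∑_j ω^j log t_j)^k exp (-∑_j t_j) dt` over the part `(0, ∞)^k \ (0, x)^k`
of the octant. (Over the whole octant the value is `ζ(k)`.)

(1) `R_k(x)` is real.

Let `K` be a finite set of odd integers `n ≥ 3`. We consider the following numbers with names: `π`; `t(n)`, `n ∈ K`;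
`R_k(x)`, where `k ∈ K` or `k ≥ 2` is even, and `x > 0` is rational. Let `T`, `N` be disjoint finite sets of names; the
numbers are called `v_i`, `i ∈ T`, and `u_j`, `j ∈ N`.

(2) Let `T` have at least `|K| + 1` elements. For every `D` there are `κ` and `c > 0` such that for all `H ≥ 1` and
all nonzero integral polynomials `Q_i(X, Y)` (`i ∈ T`), `P(Y, (X_j))` (`j ∈ N`) of degree at most `D` and with
coefficients at most `H` in absolute value, `|Q_i(v_i, e)| ≥ c / H ^ κ` for some `i`, or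
`|P(e, (u_j))| ≥ c / H ^ κ`.

(3) Let `T`, `N` consist of names of numbers `R_k(x)` only and let `T` have at least `|K|` elements. For every `D`
there are `κ` and `c > 0` such that for all `H ≥ 1` and all nonzero integral polynomials `F` (in `e`, `π` and the `t(n)`,
`n ∈ K`), `Q_i`, `P` of degree at most `D` and with coefficients at most `H` in absolute value
`|F(e, π, (t(n))_n)| ≥ c / H ^ κ` or `|Q_i(v_i, e)| ≥ c / H ^ κ` for some `i`, or `|P(e, (u_j))| ≥ c / H ^ κ`.

(4) Let `T` have at least `|K| + 1` elements and let the numbers `v_i`, `i ∈ T` (for example the `t(n)`, `n ∈ K`, and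
one more number) be simultaneously approximable to every order (for all `m` there are integers `q ≥ 2` and `p_i` with
`|v_i - p_i / q| < q ^ (-m)`; so it is if they are rational). Then `e` and the `u_j` are algebraically independent.

(5) Rational approximations to `t(n)`: let `n ≥ 3` be odd, and let `u ≠ v` be two of the numbers with names for
`K = {n}`, other than `t(n)`. For every `D` there are `κ` and `c > 0` such that for all integers `p`, `q ≥ 1` and
all nonzero integral polynomials `P`, `Q` in two variables of degree at most `D` and with coefficients at most `q`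
in absolute value `|t(n) - p / q| ≥ c / q ^ κ` or `|P(u, e)| ≥ c / q ^ κ` or `|Q(v, e)| ≥ c / q ^ κ`.

(6) Let `S` be the set of the `k` which are even or for which `k ≥ 3` is odd and `t(k)` is algebraic over `ℚ(e, π)` (for
example rational). If `v` is one of the numbers `π`, `R_k(x)`, `k ∈ S`, `x > 0` rational, and if `v` is algebraic over
`ℚ(e)` or `v` is a Liouville number, then `e` and all the other ones of these numbers are algebraically independent.
-/

namespace Pool.Agent.Results.MP_f1a024_nt.QuotientScales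

open Set MeasureTheory

/-- the zeta value `ζ(s) = ∑ 1 / n^s` -/
noncomputable def zeta (s : ℕ) : ℝ := ∑' n : ℕ, 1 / ((n : ℝ) + 1) ^ s

/-- `t(n) = ζ(2n) / ζ(n)²` -/
noncomputable def quotient (n : ℕ) : ℝ := zeta (2 * n) / zeta n ^ 2

/-- `ω = exp (2 π i / k)` -/
noncomputable def root (k : ℕ) : ℂ := Complex.exp (2 * Real.pi * Complex.I / k)

/-- `(∑_j ω^j log t_j)^k exp (-∑_j t_j)` -/
noncomputable def integrand (k : ℕ) (t : Fin k → ℝ) : ℂ :=
  (∑ j : Fin k, root k ^ (j : ℕ) * (Real.log (t j) : ℂ)) ^ k * ((Real.exp (-∑ j, t j) : ℝ) : ℂ)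

/-- `(0, ∞)^k \ (0, x)^k` -/
def rest (k : ℕ) (x : ℝ) : Set (Fin k → ℝ) := {t | (∀ j, 0 < t j) ∧ ∃ j, x ≤ t j}

/-- `R_k(x)`, as a complex number -/
noncomputable def tailIntegral (k : ℕ) (x : ℚ) : ℂ := (-1) ^ k / k.factorial * ∫ t in rest k x, integrand k t

/-- `R_k(x)`, as a real number, for the pair `(k, x)` -/
noncomputable def R (p : ℕ × ℚ) : ℝ := (tailIntegral p.1 p.2).re

/-- names of numbers: `inl none` is the name of `π`, `inl (some n)` the name of `t(n)`, and `inr (k, x)` the name of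
`R_k(x)` -/
abbrev Name : Type := Option ℕ ⊕ (ℕ × ℚ)

/-- the number with a given name -/
noncomputable def value : Name → ℝ := Sum.elim (fun o => o.elim Real.pi quotient) R

/-- the names which belong to `K` -/
def Allowed (K : Finset ℕ) : Name → Prop
  | Sum.inl none => True
  | Sum.inl (some n) => n ∈ K
  | Sum.inr p => (p.1 ∈ K ∨ Even p.1 ∧ 2 ≤ p.1) ∧ 0 < p.2

/-- `k` is even, or `k` is odd and `t(k)` is algebraic over `ℚ(e, π)` -/
def Determined (k : ℕ) : Prop :=
  Even k ∧ 2 ≤ k ∨ Odd k ∧ 3 ≤ k ∧ IsAlgebraic (IntermediateField.adjoin ℚ {Real.exp 1, Real.pi}) (quotient k)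

/-- `none` is the name of `π` and `some (k, x)` the name of `R_k(x)` -/
noncomputable def number (o : Option (ℕ × ℚ)) : ℝ := o.elim Real.pi R

/-- the names of `π` and of the `R_k(x)` with `Determined k`, `x > 0` -/
def Good (o : Option (ℕ × ℚ)) : Prop := ∀ p, o = some p → Determined p.1 ∧ 0 < p.2

/-- the height of the polynomial `P` is at most `H` -/
def HeightLE {σ : Type} (P : MvPolynomial σ ℤ) (H : ℝ) : Prop := ∀ s, |((P.coeff s : ℤ) : ℝ)| ≤ H

/-- For every `D` there are `κ` and `c > 0` such that for all nonzero integral polynomials `Q_i(X, Y)` and `P(Y, (X_j))`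
of degree at most `D` and height at most `H`, `H ≥ 1`, one of the numbers `Q_i(v_i, e)`, `P(e, (u_j))` is at least
`c / H ^ κ` in absolute value. -/
def Dichotomy {ι ι' : Type} (v : ι → ℝ) (u : ι' → ℝ) : Prop :=
  ∀ D : ℕ, ∃ κ : ℕ, ∃ c : ℝ, 0 < c ∧ ∀ (Q : ι → MvPolynomial (Fin 2) ℤ) (P : MvPolynomial (Option ι') ℤ),
    (∀ i, Q i ≠ 0) → P ≠ 0 → (∀ i, (Q i).totalDegree ≤ D) → P.totalDegree ≤ D → ∀ H : ℝ, 1 ≤ H →
    (∀ i, HeightLE (Q i) H) → HeightLE P H →
      (∃ i, c / H ^ κ ≤ |MvPolynomial.aeval ![v i, Real.exp 1] (Q i)|) ∨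
        c / H ^ κ ≤ |MvPolynomial.aeval (fun o : Option ι' => o.elim (Real.exp 1) u) P|

/-- The same with a third possibility: `|F(e, (y_l))| ≥ c / H ^ κ`. -/
def Trichotomy {ι₀ ι ι' : Type} (y : ι₀ → ℝ) (v : ι → ℝ) (u : ι' → ℝ) : Prop :=
  ∀ D : ℕ, ∃ κ : ℕ, ∃ c : ℝ, 0 < c ∧ ∀ (F : MvPolynomial (Option ι₀) ℤ) (Q : ι → MvPolynomial (Fin 2) ℤ)
    (P : MvPolynomial (Option ι') ℤ), F ≠ 0 → (∀ i, Q i ≠ 0) → P ≠ 0 → F.totalDegree ≤ D →
    (∀ i, (Q i).totalDegree ≤ D) → P.totalDegree ≤ D → ∀ H : ℝ, 1 ≤ H → HeightLE F H →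
    (∀ i, HeightLE (Q i) H) → HeightLE P H →
      c / H ^ κ ≤ |MvPolynomial.aeval (fun o : Option ι₀ => o.elim (Real.exp 1) y) F| ∨
      (∃ i, c / H ^ κ ≤ |MvPolynomial.aeval ![v i, Real.exp 1] (Q i)|) ∨
        c / H ^ κ ≤ |MvPolynomial.aeval (fun o : Option ι' => o.elim (Real.exp 1) u) P|

open Pool.Agent.N778.AF (Dx Dy ZN zeta_c1 zeta_c2 Dx_transport Dy_transport UN UN_of_alg UN_of_liouville')
open Pool.Agent.R352.E (clF mem_clF subset_clF clF_mono clF_le of_pow zt zt_even)
open Pool.Agent.R352.Q (Rk)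

theorem rest_eq (k : ℕ) (x : ℝ) :
    rest k x = Pool.Agent.R352.Q.cube k (Ioi 0) \ Pool.Agent.R352.Q.cube k (Ioo 0 x) := by
  ext t
  simp only [rest, Pool.Agent.R352.Q.cube, mem_sdiff, mem_univ_pi, mem_Ioi, mem_Ioo]
  constructor
  · rintro ⟨h1, j, h2⟩
    exact ⟨h1, fun h => absurd (h j).2 (not_lt.2 h2)⟩
  · rintro ⟨h1, h2⟩
    push Not at h2
    obtain ⟨j, hj⟩ := h2
    exact ⟨h1, j, hj (h1 j)⟩

theorem tailIntegral_eq {k : ℕ} (hk : 2 ≤ k) {x : ℚ} (hx : 0 < x) :
    tailIntegral k x = (Rk k x : ℂ) := by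
  have hx' : (0 : ℝ) < x := by exact_mod_cast hx
  have h : tailIntegral k x = Pool.Agent.R352.Q.NI k
      (Pool.Agent.R352.Q.cube k (Ioi 0) \ Pool.Agent.R352.Q.cube k (Ioo 0 x)) := by
    rw [tailIntegral, rest_eq]
    rfl
  rw [h, Pool.Agent.R352.Q.NI_diff, Pool.Agent.R352.Q.NI_full hk, Pool.Agent.R352.Q.NI_box hk hx', Rk]
  push_cast
  rfl

theorem R_eq {p : ℕ × ℚ} (hk : 2 ≤ p.1) (hx : 0 < p.2) : R p = Rk p.1 p.2 := by
  rw [R, tailIntegral_eq hk hx, Complex.ofReal_re]

theorem zeta_eq (s : ℕ) : zeta s = zt s := rfl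

theorem zeta_pos {s : ℕ} (hs : 2 ≤ s) : 0 < zeta s := by
  have h1 : Summable fun n : ℕ => 1 / ((n : ℝ) + 1) ^ s := by
    have h2 := (summable_nat_add_iff (f := fun n : ℕ => 1 / (n : ℝ) ^ s) 1).2
      (Real.summable_one_div_nat_pow.2 (by omega))
    refine h2.congr fun n => ?_
    push_cast
    rfl
  exact h1.tsum_pos (fun n => by positivity) 0 (by simp)

/-- `ζ(n)` is determined by `π` and `t(n)` -/
theorem zeta_mem {C : Set ℝ} {n : ℕ} (hn : 2 ≤ n) (hpi : Real.pi ∈ clF C) (hq : quotient n ∈ clF C) : zt n ∈ clF C := by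
  have h0 := zeta_pos hn
  have h1 : zeta (2 * n) ∈ clF C := by
    rw [zeta_eq]
    exact zt_even hpi n (by omega)
  have h3 : zeta (2 * n) ≠ 0 := (zeta_pos (by omega)).ne'
  have h4 : zeta n ^ 2 = zeta (2 * n) / quotient n := by
    rw [quotient]
    field_simp
  refine of_pow (n := 2) (by norm_num) ?_
  show zeta n ^ 2 ∈ clF C
  rw [h4]
  exact (clF C).div_mem h1 hq

/-- the constants -/
noncomputable def cst (K : Finset ℕ) (o : Option K) : ℝ := o.elim Real.pi (fun n => quotient n)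

/-- the exponents -/
def expo (K : Finset ℕ) : Set ℕ := {k | k ∈ K ∨ Even k ∧ 2 ≤ k}

theorem expo_ok {K : Finset ℕ} (hK : ∀ n ∈ K, Odd n ∧ 3 ≤ n) :
    ∀ k ∈ expo K, 2 ≤ k ∧ zt k ∈ clF ({Real.exp 1} ∪ range (cst K)) := by
  have hpi : Real.pi ∈ clF ({Real.exp 1} ∪ range (cst K)) := subset_clF _ (Or.inr ⟨none, rfl⟩)
  rintro k (hk | ⟨hk, h2⟩)
  · have h3 := hK k hk
    exact ⟨by omega, zeta_mem (by omega) hpi (subset_clF _ (Or.inr ⟨some ⟨k, hk⟩, rfl⟩))⟩
  · refine ⟨h2, ?_⟩
    obtain ⟨m, rfl⟩ := hk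
    rw [← two_mul]
    exact zt_even hpi m (by omega)

theorem card_opt (K : Finset ℕ) : Fintype.card (Option K) = K.card + 1 := by
  rw [Fintype.card_option, Fintype.card_coe]

/-- the translation of the names -/
def tr (K : Finset ℕ) : {a : Name // Allowed K a} → Option K ⊕ ZN (expo K)
  | ⟨Sum.inl none, _⟩ => Sum.inl none
  | ⟨Sum.inl (some n), h⟩ => Sum.inl (some ⟨n, h⟩)
  | ⟨Sum.inr p, h⟩ => Sum.inr ⟨p, h⟩

theorem tr_inj (K : Finset ℕ) : Function.Injective (tr K) := by
  rintro ⟨(_ | n) | p, hp⟩ ⟨(_ | m) | q, hq⟩ h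
  · rfl
  · simp [tr] at h
  · simp [tr] at h
  · simp [tr] at h
  · simp only [tr, Sum.inl.injEq, Option.some.injEq] at h
    have h2 : n = m := congrArg (fun z : K => (z : ℕ)) h
    subst h2
    rfl
  · simp [tr] at h
  · simp [tr] at h
  · simp [tr] at h
  · simp only [tr, Sum.inr.injEq] at h
    have h2 : p = q := congrArg (fun z : ZN (expo K) => z.1) h
    subst h2
    rfl

theorem tr_val {K : Finset ℕ} (hK : ∀ n ∈ K, Odd n ∧ 3 ≤ n) (a : {a : Name // Allowed K a}) :
    Sum.elim (cst K) (fun p : ZN (expo K) => Rk p.1.1 p.1.2) (tr K a) = value a := by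
  rcases a with ⟨(_ | n) | p, h⟩
  · rfl
  · rfl
  · exact (R_eq (expo_ok hK _ h.1).1 h.2).symm

theorem part2 {K : Finset ℕ} (hK : ∀ n ∈ K, Odd n ∧ 3 ≤ n) {t N : Finset Name} (ht : ∀ a ∈ t, Allowed K a)
    (hN : ∀ a ∈ N, Allowed K a) (hcard : K.card + 1 ≤ t.card) (hd : Disjoint t N) :
    Dx (fun i : t => value i) (fun j : N => value j) := by
  refine Dx_transport (tr K) (tr_inj K) (tr_val hK) (r := Fintype.card (Option K))
    (fun t N h h' => zeta_c1 (expo_ok hK) t N h h') ht hN ?_ hd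
  rw [card_opt]
  exact hcard

theorem part3 {K : Finset ℕ} (hK : ∀ n ∈ K, Odd n ∧ 3 ≤ n) {t N : Finset (ℕ × ℚ)}
    (ht : ∀ p ∈ t, Allowed K (Sum.inr p)) (hN : ∀ p ∈ N, Allowed K (Sum.inr p)) (hcard : K.card ≤ t.card)
    (hd : Disjoint t N) :
    Dy (fun o : Option K => o.elim Real.pi (fun n => quotient n)) (fun i : t => R i) (fun j : N => R j) := by
  refine Dy_transport (y := cst K) (valid := fun p : ℕ × ℚ => Allowed K (Sum.inr p)) (g := fun p : ZN (expo K) => Rk p.1.1 p.1.2)
    (val := R) (fun p => (⟨p.1, p.2⟩ : ZN (expo K))) (fun a b h => Subtype.ext (congrArg (fun z : ZN (expo K) => z.1) h))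
    (fun p => (R_eq (expo_ok hK _ p.2.1).1 p.2.2).symm) (r := Fintype.card (Option K))
    (fun t N h h' => zeta_c2 (expo_ok hK) t N h h') ht hN ?_ hd
  rw [card_opt]
  omega

/-! ### rational approximations to `t(n)` -/

open MvPolynomial in
theorem part5 {n : ℕ} (hn : Odd n) (hn3 : 3 ≤ n) {u v : Name} (hu : Allowed {n} u) (hv : Allowed {n} v) (huv : u ≠ v)
    (hun : u ≠ Sum.inl (some n)) (hvn : v ≠ Sum.inl (some n)) (D : ℕ) :
    ∃ κ : ℕ, ∃ c : ℝ, 0 < c ∧ ∀ (p : ℤ) (q : ℕ), 1 ≤ q → ∀ P Q : MvPolynomial (Fin 2) ℤ, P ≠ 0 → Q ≠ 0 →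
      P.totalDegree ≤ D → Q.totalDegree ≤ D → HeightLE P q → HeightLE Q q →
      c / (q : ℝ) ^ κ ≤ |quotient n - p / q| ∨ c / (q : ℝ) ^ κ ≤ |aeval ![value u, Real.exp 1] P| ∨
        c / (q : ℝ) ^ κ ≤ |aeval ![value v, Real.exp 1] Q| := by
  classical
  have hK : ∀ m ∈ ({n} : Finset ℕ), Odd m ∧ 3 ≤ m := by
    intro m hm
    rw [Finset.mem_singleton.1 hm]
    exact ⟨hn, hn3⟩
  have h1 := part2 hK (t := {Sum.inl (some n), u}) (N := {v}) (fun a ha => by
      rcases Finset.mem_insert.1 ha with rfl | ha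
      · exact Finset.mem_singleton_self n
      · rw [Finset.mem_singleton.1 ha]
        exact hu) (fun a ha => by
      rw [Finset.mem_singleton.1 ha]
      exact hv) (by
      rw [Finset.card_singleton, Finset.card_pair (Ne.symm hun)]) (by
      rw [Finset.disjoint_singleton_right, Finset.mem_insert, Finset.mem_singleton]
      rintro (h | h)
      · exact hvn h
      · exact huv h.symm)
  have h2 : Dx (fun b : Bool => if b then quotient n else value u) (fun _ : Unit => value v) := by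
    refine h1.mono (fun i => decide (i.1 = Sum.inl (some n))) (fun i => ?_)
      (fun _ => (⟨v, Finset.mem_singleton_self v⟩ : ({v} : Finset Name))) (fun _ _ _ => rfl) (fun _ => rfl)
    rcases Finset.mem_insert.1 i.2 with h | h
    · simp only [h, decide_true, if_true]
      rfl
    · rw [Finset.mem_singleton.1 h]
      simp only [hun, decide_false]
      simp
  obtain ⟨k, c, hc, h3⟩ := h2 (max 1 D)
  set A : ℝ := |quotient n| + 1 with hA
  have hA1 : 1 ≤ A := by
    have := abs_nonneg (quotient n)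
    linarith
  have hA0 : 0 < A := by linarith
  have hAk : 0 < A ^ k := by positivity
  refine ⟨k + 1, min 1 (c / A ^ k), lt_min one_pos (by positivity), fun p q hq P Q hP hQ hPD hQD hPH hQH => ?_⟩
  have hq1 : (1 : ℝ) ≤ q := by exact_mod_cast hq
  have hq0 : (0 : ℝ) < q := by linarith
  have hqk : (0 : ℝ) < (q : ℝ) ^ k := by positivity
  have hm1 : min 1 (c / A ^ k) / (q : ℝ) ^ (k + 1) ≤ c / (A * q) ^ k / q := by
    rw [mul_pow, div_div, pow_succ, mul_assoc, ← div_div c]
    rw [div_le_div_iff_of_pos_right (by positivity)]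
    exact min_le_right _ _
  have hm2 : c / (A * q) ^ k / q ≤ c / (A * q) ^ k := div_le_self (by positivity) hq1
  by_cases hsm : |quotient n - p / q| < 1
  · have hp : |(p : ℝ)| ≤ A * q := by
      have e1 : (p : ℝ) = (quotient n - (quotient n - p / q)) * q := by
        field_simp
        ring
      rw [e1, abs_mul, abs_of_pos hq0]
      refine mul_le_mul_of_nonneg_right ?_ hq0.le
      have := abs_sub (quotient n) (quotient n - p / q)
      linarith
    have hqA : (q : ℝ) ≤ A * q := by nlinarith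
    let g : Fin 2 → Option Unit := ![some (), none]
    have hg : Function.Injective g := by
      intro a b hab
      fin_cases a <;> fin_cases b <;> simp_all [g]
    rcases h3 (fun b => if b then Pool.Agent.N778.AF.QL q p else P) (MvPolynomial.rename g Q) (fun b => by
        cases b
        · simpa using hP
        · simpa using Pool.Agent.N778.AF.QL_ne (by exact_mod_cast hq0.ne') p)
      (Pool.Agent.N778.AF.rename_ne hg hQ) (fun b => by
        cases b
        · simpa using Or.inr hPD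
        · simpa using Or.inl (Pool.Agent.N778.AF.QL_deg _ _))
      ((MvPolynomial.totalDegree_rename_le _ _).trans (hQD.trans (le_max_right _ _))) (A * q) (hq1.trans hqA)
      (fun b s => by
        cases b
        · simpa using (hPH s).trans hqA
        · simpa using Pool.Agent.N778.AF.QL_coeff _ _ s (by
            rw [Int.cast_natCast, abs_of_pos hq0]
            exact hqA) hp)
      (Pool.Agent.N778.AF.rename_ht hg (hq1.trans hqA) (fun s => (hQH s).trans hqA)) with ⟨b, h4⟩ | h4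
    · cases b
      · refine Or.inr (Or.inl ?_)
        have h5 : c / (A * q) ^ k ≤ |aeval ![value u, Real.exp 1] P| := by simpa using h4
        exact (hm1.trans hm2).trans h5
      · refine Or.inl ?_
        have h5 : c / (A * q) ^ k ≤ |aeval ![quotient n, Real.exp 1] (Pool.Agent.N778.AF.QL q p)| := by simpa using h4
        rw [Pool.Agent.N778.AF.QL_eval, Int.cast_natCast] at h5
        have e1 : (q : ℝ) * quotient n - p = q * (quotient n - p / q) := by field_simp
        rw [e1, abs_mul, abs_of_pos hq0] at h5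
        refine hm1.trans ?_
        rw [div_le_iff₀ hq0]
        linarith
    · refine Or.inr (Or.inr ((hm1.trans hm2).trans ?_))
      rw [MvPolynomial.aeval_rename] at h4
      have e1 : (fun o : Option Unit => o.elim (Real.exp 1) (fun _ => value v)) ∘ g = ![value v, Real.exp 1] := by
        funext a
        fin_cases a <;> rfl
      rwa [e1] at h4
  · refine Or.inl (le_trans ?_ (not_lt.1 hsm))
    rw [div_le_one (by positivity)]
    exact (min_le_left _ _).trans (one_le_pow₀ hq1)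

/-! ### the determined exponents -/

theorem det_ok : ∀ k ∈ {k | Determined k}, 2 ≤ k ∧ zt k ∈ clF ({Real.exp 1} ∪ range (fun _ : Unit => Real.pi)) := by
  have hpi : Real.pi ∈ clF ({Real.exp 1} ∪ range (fun _ : Unit => Real.pi)) := subset_clF _ (Or.inr ⟨(), rfl⟩)
  have he : Real.exp 1 ∈ clF ({Real.exp 1} ∪ range (fun _ : Unit => Real.pi)) := subset_clF _ (Or.inl rfl)
  rintro k (⟨hk, h2⟩ | ⟨-, h3, hq⟩)
  · refine ⟨h2, ?_⟩
    obtain ⟨m, rfl⟩ := hk
    rw [← two_mul]
    exact zt_even hpi m (by omega)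
  · refine ⟨by omega, zeta_mem (by omega) hpi ?_⟩
    refine clF_le (S := {Real.exp 1, Real.pi}) ?_ (mem_clF.2 hq)
    rintro z (rfl | rfl)
    · exact he
    · exact hpi

/-- the translation of the names -/
def tr1 : {o : Option (ℕ × ℚ) // Good o} → Unit ⊕ ZN {k | Determined k}
  | ⟨none, _⟩ => Sum.inl ()
  | ⟨some p, h⟩ => Sum.inr ⟨p, h p rfl⟩

theorem tr1_inj : Function.Injective tr1 := by
  rintro ⟨_ | p, hp⟩ ⟨_ | q, hq⟩ h
  · rfl
  · simp [tr1] at h
  · simp [tr1] at h
  · simp only [tr1, Sum.inr.injEq] at h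
    have h2 : p = q := congrArg (fun z : ZN {k | Determined k} => z.1) h
    subst h2
    rfl

theorem tr1_val (a : {o : Option (ℕ × ℚ) // Good o}) :
    Sum.elim (fun _ : Unit => Real.pi) (fun p : ZN {k | Determined k} => Rk p.1.1 p.1.2) (tr1 a) = number a := by
  rcases a with ⟨_ | p, h⟩
  · rfl
  · exact (R_eq (det_ok _ (h p rfl).1).1 (h p rfl).2).symm

theorem part6 (i : Option (ℕ × ℚ)) (hi : Good i)
    (h : IsAlgebraic (IntermediateField.adjoin ℚ {Real.exp 1}) (number i) ∨ Liouville (number i)) :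
    AlgebraicIndependent ℚ (fun o : Option {a // Good a ∧ a ≠ i} => o.elim (Real.exp 1) (fun j => number j)) := by
  have hU : UN (number i) := by
    rcases h with h | h
    · exact UN_of_alg (mem_clF.2 h)
    · exact UN_of_liouville' h
  refine Pool.Agent.N778.AF.indep_all fun N hN hiN => ?_
  have h1 := Dx_transport tr1 tr1_inj tr1_val (r := Fintype.card Unit) (fun t N h h' => zeta_c1 det_ok t N h h')
    (t := {i}) (N := N) (fun a ha => by rw [Finset.mem_singleton.1 ha]; exact hi) hN (by simp)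
    (Finset.disjoint_singleton_left.2 hiN)
  have h2 : Dx (fun _ : Unit => number i) (fun j : N => number j) :=
    h1.mono (fun _ => ()) (fun j => by rw [Finset.mem_singleton.1 j.2]) id Function.injective_id (fun _ => rfl)
  exact h2.indep hU

theorem result :
    -- (1)
    (∀ k : ℕ, 2 ≤ k → ∀ x : ℚ, 0 < x → tailIntegral k x = (R (k, x) : ℂ)) ∧
    -- (2), (3), (4)
    (∀ K : Finset ℕ, (∀ n ∈ K, Odd n ∧ 3 ≤ n) →
      (∀ T N : Finset Name, (∀ a ∈ T, Allowed K a) → (∀ a ∈ N, Allowed K a) → Disjoint T N → K.card + 1 ≤ T.card →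
        Dichotomy (fun i : T => value i) (fun j : N => value j)) ∧
      (∀ T N : Finset (ℕ × ℚ), (∀ p ∈ T, Allowed K (Sum.inr p)) → (∀ p ∈ N, Allowed K (Sum.inr p)) → Disjoint T N →
        K.card ≤ T.card →
        Trichotomy (fun o : Option K => o.elim Real.pi (fun n => quotient n)) (fun i : T => R i) (fun j : N => R j)) ∧
      (∀ T N : Finset Name, (∀ a ∈ T, Allowed K a) → (∀ a ∈ N, Allowed K a) → Disjoint T N → K.card + 1 ≤ T.card →
        (∀ m : ℕ, ∃ q : ℕ, 2 ≤ q ∧ ∃ p : T → ℤ, ∀ i : T, |value i - p i / q| < 1 / (q : ℝ) ^ m) →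
        AlgebraicIndependent ℚ (fun o : Option N => o.elim (Real.exp 1) (fun j => value j)))) ∧
    -- (5)
    (∀ n : ℕ, Odd n → 3 ≤ n → ∀ u v : Name, Allowed {n} u → Allowed {n} v → u ≠ v → u ≠ Sum.inl (some n) →
      v ≠ Sum.inl (some n) → ∀ D : ℕ, ∃ κ : ℕ, ∃ c : ℝ, 0 < c ∧ ∀ (p : ℤ) (q : ℕ), 1 ≤ q →
      ∀ P Q : MvPolynomial (Fin 2) ℤ, P ≠ 0 → Q ≠ 0 → P.totalDegree ≤ D → Q.totalDegree ≤ D →
      HeightLE P q → HeightLE Q q → c / (q : ℝ) ^ κ ≤ |quotient n - p / q| ∨
        c / (q : ℝ) ^ κ ≤ |MvPolynomial.aeval ![value u, Real.exp 1] P| ∨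
        c / (q : ℝ) ^ κ ≤ |MvPolynomial.aeval ![value v, Real.exp 1] Q|) ∧
    -- (6)
    (∀ i : Option (ℕ × ℚ), Good i →
      IsAlgebraic (IntermediateField.adjoin ℚ {Real.exp 1}) (number i) ∨ Liouville (number i) →
      AlgebraicIndependent ℚ (fun o : Option {a // Good a ∧ a ≠ i} => o.elim (Real.exp 1) (fun j => number j))) := by
  refine ⟨fun k hk x hx => ?_, fun K hK => ⟨fun T N hT hN hd hc => part2 hK hT hN hc hd,
    fun T N hT hN hd hc => part3 hK hT hN hc hd, fun T N hT hN hd hc hv => (part2 hK hT hN hc hd).indep_sim hv⟩,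
    fun n hn hn3 u v hu hv huv hun hvn D => part5 hn hn3 hu hv huv hun hvn D, part6⟩
  rw [R, tailIntegral_eq hk hx, Complex.ofReal_re]

end Pool.Agent.Results.MP_f1a024_nt.QuotientScales
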